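import Mathlib
import Pool.Agent.W922.GY2.Stm

set_option autoImplicit false

namespace Pool.Agent.W330.GY2

open Filter Topology MeasureTheory Set
open scoped Pointwise
open Pool.Agent.W922.GY2

/-- the terms of the supremum -/
noncomputable def fL {G : Type} [Group G] (W : Set G) (ℓ : G → ℝ) (M : ℝ) (L : List G) (x : G) : ℝ :=
  Set.indicator {x : G | L.prod⁻¹ * x ∈ W} (fun _ => max 0 (1 - M * cost ℓ L)) x

theorem cost_nonneg {G : Type} {ℓ : G → ℝ} (h : ∀ g, 0 ≤ ℓ g) (L : List G) : 0 ≤ cost ℓ L := by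
  unfold cost
  apply List.sum_nonneg
  intro r hr
  rw [List.mem_map] at hr
  obtain ⟨g, _, rfl⟩ := hr
  exact h g

section
variable {G : Type} [Group G] {W : Set G} {ℓ : G → ℝ} {M : ℝ}

theorem fL_nonneg (L : List G) (x : G) : 0 ≤ fL W ℓ M L x := by
  unfold fL
  apply Set.indicator_nonneg
  intro _ _
  exact le_max_left _ _

theorem fL_le_one (hM : 0 ≤ M) (h : ∀ g, 0 ≤ ℓ g) (L : List G) (x : G) : fL W ℓ M L x ≤ 1 := by
  unfold fL
  apply Set.indicator_apply_le'
  · intro _
    apply max_le zero_le_one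
    have := mul_nonneg hM (cost_nonneg h L)
    linarith
  · intro _
    exact zero_le_one

theorem bdd (hM : 0 ≤ M) (h : ∀ g, 0 ≤ ℓ g) (x : G) : BddAbove (Set.range (fun L => fL W ℓ M L x)) := by
  refine ⟨1, ?_⟩
  rintro _ ⟨L, rfl⟩
  exact fL_le_one hM h L x

theorem lip1 (hM : 0 ≤ M) (h : ∀ g, 0 ≤ ℓ g) (g x : G) :
    (⨆ L, fL W ℓ M L (g⁻¹ * x)) ≤ (⨆ L, fL W ℓ M L x) + M * ℓ g := by
  apply ciSup_le
  intro L
  have h1 : fL W ℓ M L (g⁻¹ * x) ≤ fL W ℓ M (g :: L) x + M * ℓ g := by
    have hg : 0 ≤ M * ℓ g := mul_nonneg hM (h g)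
    by_cases hx : L.prod⁻¹ * (g⁻¹ * x) ∈ W
    · have hx' : (g :: L).prod⁻¹ * x ∈ W := by
        rw [List.prod_cons, mul_inv_rev, mul_assoc]
        exact hx
      have e1 : fL W ℓ M L (g⁻¹ * x) = max 0 (1 - M * cost ℓ L) := by
        unfold fL
        rw [Set.indicator_of_mem]
        exact hx
      have e2 : fL W ℓ M (g :: L) x = max 0 (1 - M * cost ℓ (g :: L)) := by
        unfold fL
        rw [Set.indicator_of_mem]
        exact hx'
      have e3 : cost ℓ (g :: L) = ℓ g + cost ℓ L := by
        unfold cost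
        simp
      rw [e1, e2, e3]
      apply max_le
      · have := le_max_left 0 (1 - M * (ℓ g + cost ℓ L))
        linarith
      · have := le_max_right 0 (1 - M * (ℓ g + cost ℓ L))
        linarith
    · have e1 : fL W ℓ M L (g⁻¹ * x) = 0 := by
        unfold fL
        rw [Set.indicator_of_notMem]
        exact hx
      rw [e1]
      have := fL_nonneg (W := W) (ℓ := ℓ) (M := M) (g :: L) x
      linarith
  have h2 : fL W ℓ M (g :: L) x ≤ ⨆ L, fL W ℓ M L x := le_ciSup (bdd hM h x) (g :: L)
  linarith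
end

theorem psi : S_PSI := by
  intro G _ _ _ W ℓ M hW h1W hM hℓ hinv hPP
  refine ⟨fun x => ⨆ L : List G, fL W ℓ M L x, ?_, ?_, ?_, ?_, ?_⟩
  · apply lowerSemicontinuous_ciSup (fun x => bdd hM hℓ x)
    intro L
    unfold fL
    apply IsOpen.lowerSemicontinuous_indicator
    · exact hW.preimage (continuous_const.mul continuous_id)
    · exact le_max_left _ _
  · intro x
    refine ⟨?_, ?_⟩
    · exact Real.iSup_nonneg (fun L => fL_nonneg L x)
    · exact ciSup_le (fun L => fL_le_one hM hℓ L x)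
  · intro x hx
    apply le_antisymm
    · exact ciSup_le (fun L => fL_le_one hM hℓ L x)
    · have h2 : fL W ℓ M [] x ≤ ⨆ L : List G, fL W ℓ M L x := le_ciSup (bdd hM hℓ x) []
      have h3 : fL W ℓ M ([] : List G) x = 1 := by
        unfold fL
        rw [Set.indicator_of_mem]
        · simp [cost]
        · simpa using hx
      rw [h3] at h2
      exact h2
  · intro x hx
    have h2 : ∃ L : List G, fL W ℓ M L x ≠ 0 := by
      by_contra hc
      push Not at hc
      apply hx
      simp [hc]
    obtain ⟨L, hL⟩ := h2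
    have hmem : L.prod⁻¹ * x ∈ W := by
      by_contra hc
      apply hL
      unfold fL
      rw [Set.indicator_of_notMem]
      exact hc
    have e1 : fL W ℓ M L x = max 0 (1 - M * cost ℓ L) := by
      unfold fL
      rw [Set.indicator_of_mem]
      exact hmem
    rw [e1] at hL
    have h3 : M * cost ℓ L < 1 := by
      by_contra hc
      push Not at hc
      apply hL
      apply max_eq_left
      linarith
    have h4 := hPP L h3
    exact ⟨L.prod, h4, L.prod⁻¹ * x, hmem, by simp⟩
  · intro g x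
    rw [abs_le]
    have h1 := lip1 (W := W) hM hℓ g x
    have h2 := lip1 (W := W) hM hℓ g⁻¹ (g⁻¹ * x)
    rw [inv_inv, mul_inv_cancel_left, hinv] at h2
    constructor
    · linarith
    · linarith

end Pool.Agent.W330.GY2
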